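import Pool.Agent.Helper22.MI.Stmts0

/-! Mixed-integer formulations (MP_e361f4_lc): module TOR. -/

set_option autoImplicit false

namespace Pool.Agent.Helper22.MI

open Finset

theorem tor_exp (j D : ℕ) [NeZero D] (t : Fin j → ℝ) (h : Fin j → ℤ) (γ : Fin j → ZMod D) :
    Complex.exp (2 * Real.pi * Complex.I *
      ∑ i, (h i : ℂ) * (((ZMod.val (γ i) : ℝ) / D - t i : ℝ) : ℂ)) =
      Complex.exp (-(2 * Real.pi * Complex.I * ∑ i, (h i : ℂ) * (t i : ℂ))) *
        ZMod.stdAddChar (∑ i, (h i : ZMod D) * γ i) := by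
  have e1 : (∑ i, (h i : ZMod D) * γ i) =
      ((∑ i, h i * (ZMod.val (γ i) : ℤ) : ℤ) : ZMod D) := by
    push_cast
    refine Finset.sum_congr rfl fun i _ => ?_
    rw [ZMod.natCast_zmod_val]
  rw [e1, ZMod.stdAddChar_coe, ← Complex.exp_add]
  congr 1
  have e2 : ∑ i, (h i : ℂ) * (((ZMod.val (γ i) : ℝ) / D - t i : ℝ) : ℂ) =
      (∑ i, (h i : ℂ) * (ZMod.val (γ i) : ℂ)) / D - ∑ i, (h i : ℂ) * (t i : ℂ) := by
    rw [Finset.sum_div, ← Finset.sum_sub_distrib]
    refine Finset.sum_congr rfl fun i _ => ?_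
    push_cast
    ring
  rw [e2]
  push_cast
  ring

theorem tor_sum (j D : ℕ) [NeZero D] (t : Fin j → ℝ) (Γ : AddSubgroup (Fin j → ZMod D))
    [Fintype Γ] (h : Fin j → ℤ) (hh : ∃ γ ∈ Γ, ∑ i, (h i : ZMod D) * γ i ≠ 0) :
    ∑ γ : Γ, Complex.exp (2 * Real.pi * Complex.I *
      ∑ i, (h i : ℂ) * (((ZMod.val (γ.1 i) : ℝ) / D - t i : ℝ) : ℂ)) = 0 := by
  classical
  simp_rw [tor_exp]
  rw [← Finset.mul_sum]
  let φ : Γ →+ ZMod D := AddMonoidHom.mk' (fun γ => ∑ i, (h i : ZMod D) * γ.1 i) (by
    intro a b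
    rw [← Finset.sum_add_distrib]
    refine Finset.sum_congr rfl fun i _ => ?_
    show (h i : ZMod D) * (a.1 i + b.1 i) = _
    ring)
  have h1 : ∑ γ : Γ, (ZMod.stdAddChar.compAddMonoidHom φ : AddChar Γ ℂ) γ = 0 := by
    rw [AddChar.sum_eq_zero_iff_ne_zero]
    intro h0
    obtain ⟨γ, hγ, hne⟩ := hh
    apply hne
    have h2 : (ZMod.stdAddChar.compAddMonoidHom φ : AddChar Γ ℂ) ⟨γ, hγ⟩ = 1 := by
      rw [h0]; rfl
    have h3 : (ZMod.stdAddChar (φ ⟨γ, hγ⟩) : ℂ) = ZMod.stdAddChar (0 : ZMod D) := by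
      rw [AddChar.map_zero_eq_one]
      exact h2
    exact ZMod.injective_stdAddChar h3
  have h4 : ∑ γ : Γ, (ZMod.stdAddChar (∑ i, (h i : ZMod D) * γ.1 i) : ℂ) = 0 := h1
  rw [h4, mul_zero]

theorem tor_cnt (j m : ℕ) (i : Fin j) :
    ((m : ℝ) - 1) * (m : ℝ) ^ j ≤ m *
      ∑ a ∈ Fintype.piFinset (fun _ : Fin j => Finset.Ico (0 : ℤ) m),
        ∑ b ∈ Fintype.piFinset (fun _ : Fin j => Finset.Ico (0 : ℤ) m),
          (if b = a + Pi.single i 1 then (1 : ℝ) else 0) := by
  classical
  rcases Nat.eq_zero_or_pos m with hm | hm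
  · subst hm
    have : (0 : ℝ) ^ j = 0 := by
      apply zero_pow
      have := i.2
      omega
    simp [this]
  set A := Fintype.piFinset (fun _ : Fin j => Finset.Ico (0 : ℤ) m) with hA
  have h1 : ∀ a ∈ A, ∑ b ∈ A, (if b = a + Pi.single i 1 then (1 : ℝ) else 0) =
      if a + Pi.single i 1 ∈ A then 1 else 0 := by
    intro a _
    rw [Finset.sum_ite_eq']
  rw [Finset.sum_congr rfl h1, Finset.sum_boole]
  set g : Fin j → Finset ℤ := fun l => if l = i then Finset.Ico (0 : ℤ) (m - 1)
    else Finset.Ico (0 : ℤ) m with hg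
  have h2 : Fintype.piFinset g ⊆ A.filter (fun a => a + Pi.single i 1 ∈ A) := by
    intro a ha
    rw [Fintype.mem_piFinset] at ha
    rw [Finset.mem_filter, hA, Fintype.mem_piFinset, Fintype.mem_piFinset]
    constructor
    · intro l
      have := ha l
      simp only [hg] at this
      split_ifs at this with hl
      · rw [Finset.mem_Ico] at this ⊢
        omega
      · exact this
    · intro l
      have := ha l
      simp only [hg] at this
      split_ifs at this with hl
      · subst hl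
        rw [Finset.mem_Ico] at this ⊢
        simp only [Pi.add_apply, Pi.single_eq_same]
        omega
      · rw [Finset.mem_Ico] at this ⊢
        simp only [Pi.add_apply, Pi.single_eq_of_ne hl]
        omega
  have h3 : (Fintype.piFinset g).card * m = (m - 1) * m ^ j := by
    rw [Fintype.card_piFinset, ← Finset.mul_prod_erase Finset.univ _ (Finset.mem_univ i)]
    have e1 : (g i).card = m - 1 := by
      simp only [hg, if_true, Int.card_Ico]
      omega
    have e2 : ∏ l ∈ Finset.univ.erase i, (g l).card = m ^ (j - 1) := by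
      rw [Finset.prod_congr rfl (g := fun _ => m)]
      · rw [Finset.prod_const, Finset.card_erase_of_mem (Finset.mem_univ i), Finset.card_univ,
          Fintype.card_fin]
      · intro l hl
        have hl' : l ≠ i := (Finset.mem_erase.1 hl).1
        simp only [hg, if_neg hl', Int.card_Ico]
        omega
    rw [e1, e2, mul_assoc, ← pow_succ]
    have := i.2
    congr 2
    omega
  have h4 : (Fintype.piFinset g).card ≤ (A.filter (fun a => a + Pi.single i 1 ∈ A)).card :=
    Finset.card_le_card h2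
  have h5 : ((m : ℝ) - 1) * (m : ℝ) ^ j = (Fintype.piFinset g).card * (m : ℝ) := by
    have h6 : (((Fintype.piFinset g).card * m : ℕ) : ℝ) = (((m - 1) * m ^ j : ℕ) : ℝ) := by
      rw [h3]
    push_cast at h6
    rw [Nat.cast_sub hm] at h6
    push_cast at h6
    linarith
  rw [h5, mul_comm]
  have h7 : ((Fintype.piFinset g).card : ℝ) ≤
      ((A.filter (fun a => a + Pi.single i 1 ∈ A)).card : ℝ) := by exact_mod_cast h4
  exact mul_le_mul_of_nonneg_left h7 (Nat.cast_nonneg m)

theorem st_TOR : ST_TOR := by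
  classical
  intro j D m η hD hj Γ t hΓ
  have : NeZero D := ⟨hD.ne'⟩
  have hm : 0 < m := by
    rcases Nat.eq_zero_or_pos m with h | h
    · subst h
      have := Nat.cast_nonneg (α := ℝ) j
      simp at hj
      linarith
    · exact h
  by_contra hcon
  push Not at hcon
  have : Fintype Γ := Fintype.ofFinite _
  set X : Γ → Fin j → ℝ := fun γ i => (ZMod.val (γ.1 i) : ℝ) / D - t i with hX
  set e : (Fin j → ℤ) → Γ → ℂ := fun h γ =>
    Complex.exp (2 * Real.pi * Complex.I * ∑ i, (h i : ℂ) * (X γ i : ℂ)) with he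
  have hadd : ∀ h h' γ, e (h + h') γ = e h γ * e h' γ := by
    intro h h' γ
    simp only [he]
    rw [← Complex.exp_add, ← mul_add, ← Finset.sum_add_distrib]
    congr 2
    refine Finset.sum_congr rfl fun i _ => ?_
    simp only [Pi.add_apply]
    push_cast
    ring
  have hconj : ∀ h γ, (starRingEnd ℂ) (e h γ) = e (-h) γ := by
    intro h γ
    simp only [he]
    rw [← Complex.exp_conj]
    congr 1
    simp only [map_mul, map_sum, Complex.conj_I, Complex.conj_ofReal, map_intCast, map_ofNat,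
      Pi.neg_apply, Int.cast_neg, neg_mul, Finset.sum_neg_distrib]
    ring
  have hchar : ∀ h : Fin j → ℤ, (∀ i, |h i| ≤ m) →
      ∑ γ, e h γ = if h = 0 then (Fintype.card Γ : ℂ) else 0 := by
    intro h hh
    split_ifs with h0
    · subst h0
      simp [he]
    · exact tor_sum j D t Γ h (hΓ h h0 hh)
  have hcos : ∀ γ i, ((Real.cos (2 * Real.pi * X γ i) : ℝ) : ℂ) =
      (e (Pi.single i 1) γ + e (-Pi.single i 1) γ) / 2 := by
    intro γ i
    have e1 : e (Pi.single i 1) γ = Complex.exp ((2 * Real.pi * X γ i : ℂ) * Complex.I) := by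
      simp only [he]
      congr 1
      rw [Finset.sum_eq_single i]
      · simp
        ring
      · intro b _ hb
        simp [Pi.single_eq_of_ne hb]
      · intro h
        exact absurd (Finset.mem_univ i) h
    have e2 : e (-Pi.single i 1) γ = Complex.exp (-(2 * Real.pi * X γ i : ℂ) * Complex.I) := by
      rw [← hconj, e1, ← Complex.exp_conj]
      congr 1
      simp only [map_mul, Complex.conj_I, Complex.conj_ofReal, map_ofNat]
      ring
    rw [e1, e2]
    push_cast
    rw [Complex.cos]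
  set A := Fintype.piFinset (fun _ : Fin j => Finset.Ico (0 : ℤ) m) with hA
  have hAr : ∀ a ∈ A, ∀ i, 0 ≤ a i ∧ a i < m := by
    intro a ha i
    rw [hA, Fintype.mem_piFinset] at ha
    exact Finset.mem_Ico.1 (ha i)
  set P : Γ → ℂ := fun γ => ∑ a ∈ A, e a γ with hP
  have hS : ∑ γ : Γ, (η - ∑ i, (1 - Real.cos (2 * Real.pi * X γ i))) * Complex.normSq (P γ)
      ≤ 0 := by
    apply Finset.sum_nonpos
    intro γ _
    have h1 := hcon γ.1 γ.2
    apply mul_nonpos_of_nonpos_of_nonneg
    · linarith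
    · exact Complex.normSq_nonneg _
  have hsq : ∀ γ, ((Complex.normSq (P γ) : ℝ) : ℂ) = ∑ a ∈ A, ∑ b ∈ A, e (a - b) γ := by
    intro γ
    rw [← Complex.mul_conj]
    simp only [hP]
    rw [map_sum, Finset.sum_mul_sum]
    refine Finset.sum_congr rfl fun a _ => Finset.sum_congr rfl fun b _ => ?_
    rw [hconj, ← hadd, sub_eq_add_neg]
  have hterm : ∀ γ, (((η - ∑ i, (1 - Real.cos (2 * Real.pi * X γ i))) *
      Complex.normSq (P γ) : ℝ) : ℂ) = ∑ a ∈ A, ∑ b ∈ A, (((η : ℂ) - j) * e (a - b) γ +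
        ∑ i, (e (a - b + Pi.single i 1) γ + e (a - b + -Pi.single i 1) γ) / 2) := by
    intro γ
    rw [Complex.ofReal_mul, hsq, Finset.mul_sum]
    refine Finset.sum_congr rfl fun a _ => ?_
    rw [Finset.mul_sum]
    refine Finset.sum_congr rfl fun b _ => ?_
    have e1 : ((η - ∑ i, (1 - Real.cos (2 * Real.pi * X γ i)) : ℝ) : ℂ) =
        (η : ℂ) - j + ∑ i, (e (Pi.single i 1) γ + e (-Pi.single i 1) γ) / 2 := by
      rw [Finset.sum_sub_distrib]
      push_cast
      simp_rw [← hcos]
      simp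
      ring
    rw [e1, add_mul, Finset.sum_mul]
    congr 1
    refine Finset.sum_congr rfl fun i _ => ?_
    rw [hadd, hadd]
    ring
  have hsum : ((∑ γ : Γ, (η - ∑ i, (1 - Real.cos (2 * Real.pi * X γ i))) *
      Complex.normSq (P γ) : ℝ) : ℂ) = ∑ a ∈ A, ∑ b ∈ A, (((η : ℂ) - j) * (∑ γ, e (a - b) γ) +
        ∑ i, ((∑ γ, e (a - b + Pi.single i 1) γ) + ∑ γ, e (a - b + -Pi.single i 1) γ) / 2) := by
    rw [Complex.ofReal_sum, Finset.sum_congr rfl (fun γ _ => hterm γ), Finset.sum_comm]
    refine Finset.sum_congr rfl fun a _ => ?_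
    rw [Finset.sum_comm]
    refine Finset.sum_congr rfl fun b _ => ?_
    rw [Finset.sum_add_distrib, ← Finset.mul_sum, Finset.sum_comm]
    congr 1
    refine Finset.sum_congr rfl fun i _ => ?_
    rw [← Finset.sum_div, Finset.sum_add_distrib]
  have hval : ∀ a ∈ A, ∀ b ∈ A, (((η : ℂ) - j) * (∑ γ, e (a - b) γ) +
        ∑ i, ((∑ γ, e (a - b + Pi.single i 1) γ) + ∑ γ, e (a - b + -Pi.single i 1) γ) / 2) =
      (((Fintype.card Γ : ℝ) * ((η - j) * (if b = a then 1 else 0) +
        ∑ i, ((if b = a + Pi.single i 1 then (1 : ℝ) else 0) +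
          (if a = b + Pi.single i 1 then (1 : ℝ) else 0)) / 2) : ℝ) : ℂ) := by
    intro a ha b hb
    have k0 : ∑ γ, e (a - b) γ = ((Fintype.card Γ * (if b = a then 1 else 0) : ℝ) : ℂ) := by
      rw [hchar]
      · by_cases hab : b = a
        · subst hab
          simp
        · rw [if_neg (fun h => hab (sub_eq_zero.1 h).symm), if_neg hab]
          simp
      · intro i
        have h1 := hAr a ha i
        have h2 := hAr b hb i
        simp only [Pi.sub_apply]
        rw [abs_le]
        omega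
    have k1 : ∀ i, ∑ γ, e (a - b + Pi.single i 1) γ =
        ((Fintype.card Γ * (if b = a + Pi.single i 1 then 1 else 0) : ℝ) : ℂ) := by
      intro i
      rw [hchar]
      · by_cases hab : b = a + Pi.single i 1
        · rw [if_pos (by rw [hab]; abel), if_pos hab]
          simp
        · rw [if_neg (fun h => hab (by
            have := sub_eq_zero.1 (show (a + Pi.single i 1) - b = 0 by rw [← h]; abel)
            exact this.symm)), if_neg hab]
          simp
      · intro l
        have h1 := hAr a ha l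
        have h2 := hAr b hb l
        simp only [Pi.add_apply, Pi.sub_apply]
        by_cases hl : l = i
        · subst hl
          rw [Pi.single_eq_same, abs_le]
          omega
        · rw [Pi.single_eq_of_ne hl, abs_le]
          omega
    have k2 : ∀ i, ∑ γ, e (a - b + -Pi.single i 1) γ =
        ((Fintype.card Γ * (if a = b + Pi.single i 1 then 1 else 0) : ℝ) : ℂ) := by
      intro i
      rw [hchar]
      · by_cases hab : a = b + Pi.single i 1
        · rw [if_pos (by rw [hab]; abel), if_pos hab]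
          simp
        · rw [if_neg (fun h => hab (by
            have := sub_eq_zero.1 (show a - (b + Pi.single i 1) = 0 by rw [← h]; abel)
            exact this)), if_neg hab]
          simp
      · intro l
        have h1 := hAr a ha l
        have h2 := hAr b hb l
        simp only [Pi.add_apply, Pi.sub_apply, Pi.neg_apply]
        by_cases hl : l = i
        · subst hl
          rw [Pi.single_eq_same, abs_le]
          omega
        · rw [Pi.single_eq_of_ne hl, abs_le]
          omega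
    rw [k0]
    simp_rw [k1, k2]
    push_cast
    rw [mul_add, Finset.mul_sum]
    congr 1
    · ring
    · refine Finset.sum_congr rfl fun i _ => ?_
      ring
  have hreal : ∑ γ : Γ, (η - ∑ i, (1 - Real.cos (2 * Real.pi * X γ i))) *
      Complex.normSq (P γ) = ∑ a ∈ A, ∑ b ∈ A, ((Fintype.card Γ : ℝ) *
        ((η - j) * (if b = a then 1 else 0) +
        ∑ i, ((if b = a + Pi.single i 1 then (1 : ℝ) else 0) +
          (if a = b + Pi.single i 1 then (1 : ℝ) else 0)) / 2)) := by
    apply Complex.ofReal_injective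
    rw [hsum, Complex.ofReal_sum]
    refine Finset.sum_congr rfl fun a ha => ?_
    rw [Complex.ofReal_sum]
    exact Finset.sum_congr rfl fun b hb => hval a ha b hb
  have hcount : ∑ a ∈ A, ∑ b ∈ A, ((Fintype.card Γ : ℝ) *
        ((η - j) * (if b = a then 1 else 0) +
        ∑ i, ((if b = a + Pi.single i 1 then (1 : ℝ) else 0) +
          (if a = b + Pi.single i 1 then (1 : ℝ) else 0)) / 2)) =
      (Fintype.card Γ : ℝ) * ((η - j) * (m : ℝ) ^ j +
        ∑ i : Fin j, ∑ a ∈ A, ∑ b ∈ A, (if b = a + Pi.single i 1 then (1 : ℝ) else 0)) := by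
    simp_rw [← Finset.mul_sum]
    congr 1
    simp_rw [Finset.sum_add_distrib, ← Finset.mul_sum]
    congr 1
    · congr 1
      have h1 : ∀ a ∈ A, ∑ b ∈ A, (if b = a then (1 : ℝ) else 0) = 1 := by
        intro a ha
        rw [Finset.sum_ite_eq', if_pos ha]
      rw [Finset.sum_congr rfl h1, Finset.sum_const, nsmul_eq_mul, mul_one, hA,
        Fintype.card_piFinset]
      simp
    · have h2 : ∀ a ∈ A, ∑ b ∈ A, ∑ i : Fin j, ((if b = a + Pi.single i 1 then (1 : ℝ) else 0) +
          (if a = b + Pi.single i 1 then (1 : ℝ) else 0)) / 2 =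
          ∑ i : Fin j, ∑ b ∈ A, ((if b = a + Pi.single i 1 then (1 : ℝ) else 0) +
          (if a = b + Pi.single i 1 then (1 : ℝ) else 0)) / 2 := fun a _ => Finset.sum_comm
      rw [Finset.sum_congr rfl h2, Finset.sum_comm]
      refine Finset.sum_congr rfl fun i _ => ?_
      have h3 : ∀ a ∈ A, ∑ b ∈ A, ((if b = a + Pi.single i 1 then (1 : ℝ) else 0) +
          (if a = b + Pi.single i 1 then (1 : ℝ) else 0)) / 2 =
          (∑ b ∈ A, (if b = a + Pi.single i 1 then (1 : ℝ) else 0)) / 2 +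
          (∑ b ∈ A, (if a = b + Pi.single i 1 then (1 : ℝ) else 0)) / 2 := by
        intro a _
        rw [← Finset.sum_div, Finset.sum_add_distrib, add_div]
      rw [Finset.sum_congr rfl h3, Finset.sum_add_distrib, ← Finset.sum_div, ← Finset.sum_div]
      have h4 : ∑ a ∈ A, ∑ b ∈ A, (if a = b + Pi.single i 1 then (1 : ℝ) else 0) =
          ∑ a ∈ A, ∑ b ∈ A, (if b = a + Pi.single i 1 then (1 : ℝ) else 0) := Finset.sum_comm
      rw [h4]
      ring
  rw [hreal, hcount] at hS
  have hcard : (0 : ℝ) < Fintype.card Γ := by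
    have : 0 < Fintype.card Γ := Fintype.card_pos
    exact_mod_cast this
  have hS2 : (η - j) * (m : ℝ) ^ j +
        ∑ i : Fin j, ∑ a ∈ A, ∑ b ∈ A, (if b = a + Pi.single i 1 then (1 : ℝ) else 0) ≤ 0 := by
    by_contra hc
    push Not at hc
    exact absurd hS (not_le.2 (mul_pos hcard hc))
  have hmr : (0 : ℝ) < m := by exact_mod_cast hm
  have hlow : (j : ℝ) * (((m : ℝ) - 1) * (m : ℝ) ^ j) ≤
      m * ∑ i : Fin j, ∑ a ∈ A, ∑ b ∈ A, (if b = a + Pi.single i 1 then (1 : ℝ) else 0) := by
    rw [Finset.mul_sum]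
    have : (j : ℝ) * (((m : ℝ) - 1) * (m : ℝ) ^ j) =
        ∑ _i : Fin j, (((m : ℝ) - 1) * (m : ℝ) ^ j) := by
      rw [Finset.sum_const, Finset.card_univ, Fintype.card_fin, nsmul_eq_mul]
    rw [this]
    exact Finset.sum_le_sum fun i _ => tor_cnt j m i
  have hfin : 0 < (m : ℝ) ^ j * (η * m - j) := mul_pos (pow_pos hmr j) (by linarith)
  have h5 : (m : ℝ) * ((η - j) * (m : ℝ) ^ j) + (j : ℝ) * (((m : ℝ) - 1) * (m : ℝ) ^ j) =
      (m : ℝ) ^ j * (η * m - j) := by ring
  have h6 : (m : ℝ) * ((η - j) * (m : ℝ) ^ j +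
        ∑ i : Fin j, ∑ a ∈ A, ∑ b ∈ A, (if b = a + Pi.single i 1 then (1 : ℝ) else 0)) ≤ 0 :=
    mul_nonpos_of_nonneg_of_nonpos hmr.le hS2
  rw [mul_add] at h6
  linarith

end Pool.Agent.Helper22.MI
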